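import Pool.Agent.W938.QC.Main

/-!
# Quantum and classical proofs with few questions to a random oracle

Let `O` be the oracle which is a random oracle `A` on the strings of even length and a fixed oracle
`B` on the strings of odd length. We consider verifiers which

* make a classical polynomial-time computation with oracle `O`, depending on the input and on a
  classical witness (polynomially many adaptive questions),
* then run a polynomial-size quantum circuit on a quantum witness; the circuit asks arbitrarily
  (polynomially) many questions of odd length in superposition, but, on inputs of length `n`, at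
  most `r n` questions which concern strings of even length. A question is a string `z`, in
  superposition, and its answer consists of polynomially many bits: of the values of the oracle at
  `z u` for all `u` in a list of suffixes; so the oracle is used like a random function with long
  values.

For a suitable `B` and almost every `A`, such a promise problem has classical proofs of length
`(n + 2) ^ (d (r n + 1) ^ 2)`, which are checked in polynomial time (in the length of the proof) by
a classical verifier with oracle `O`. In particular, if `r` is bounded, exactly the promise
problems in `NP` relative to `O` are obtained, for all constants `0 ≤ s < c ≤ 1` (soundness and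
completeness). This holds for all witness states (`QMA`), for basis states (`QCMA`), for products of
`k` states (`QMA(k)`), and for any countable collection of sets of allowed witness states, with
the same `B` and `A`.

The proof combines the hybrid argument with the inequality of Talagrand for the convex distance: the
strings asked with a large weight by the verifier on its best witness are, for almost all oracles,
a classical certificate.
-/

set_option autoImplicit false

namespace Pool.Agent.Results.MP_36f78e_lc.FewQuestionsRandomOracle

open Pool.Agent.W938.QC Pool.Agent.H620R2.Gauge
open Pool.Agent.W938.QX (IsNPP)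
open Pool.Agent.H628R3.RO (randomOracle)

/-- For every sequence `W 0, W 1, ...` of families of allowed witness states there is an oracle `B`
such that for almost every oracle `A`, relative to `QX.mix A B` (that is `A` on the even lengths and
`B` on the odd lengths): promise problems with quantum proofs, with witness states from `W i`, with
completeness `c` and soundness `s < c`, and with at most `r n` questions concerning strings of even
length in superposition, have classical proofs of length `(n + 2) ^ (d (r n + 1) ^ 2)`; and for
bounded `r` such quantum proofs have exactly the power of `NP`. -/
theorem result (W : ℕ → ∀ b : ℕ, Set ((Fin b → Bool) → ℂ))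
    (hW : ∀ i b, ∃ ψ ∈ W i b, ∑ t, ‖ψ t‖ ^ 2 = 1) :
    ∃ B : Oracle, ∀ᵐ A ∂randomOracle, ∀ (i : ℕ) (r : ℕ → ℕ) (c s : ℝ) (Y N : Set (List Bool)),
      0 ≤ s → s < c → c ≤ 1 →
      (IsQMA (W i) r c s (Pool.Agent.W938.QX.mix A B) Y N →
        ∃ d : ℕ, IsNW (fun n => (n + 2) ^ (d * (r n + 1) ^ 2))
          (Pool.Agent.W938.QX.mix A B) Y N) ∧
      ((∃ R, ∀ n, r n ≤ R) →
        (IsQMA (W i) r c s (Pool.Agent.W938.QX.mix A B) Y N ↔
          IsNPP (Pool.Agent.W938.QX.mix A B) Y N)) := by
  obtain ⟨B, hB⟩ := main W
  refine ⟨B, ?_⟩
  filter_upwards [hB] with A hA i r c s Y N hs hsc hc
  refine ⟨hA i r c s Y N hs hsc, ?_⟩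
  rintro ⟨R, hR⟩
  refine ⟨fun h => ?_, conv (W i) (hW i) r c s hc hs (Pool.Agent.W938.QX.mix A B) Y N⟩
  obtain ⟨d, hd⟩ := hA i r c s Y N hs hsc h
  refine npp_of_nw hd ((Polynomial.X + 2) ^ (d * (R + 1) ^ 2)) fun n => ?_
  rw [Polynomial.eval_pow, Polynomial.eval_add, Polynomial.eval_X, Polynomial.eval_ofNat]
  exact Nat.pow_le_pow_right (by omega)
    (Nat.mul_le_mul_left _ (Nat.pow_le_pow_left (Nat.succ_le_succ (hR n)) 2))

end Pool.Agent.Results.MP_36f78e_lc.FewQuestionsRandomOracle
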