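import Pool.Agent.W996.MW.Main2
import Pool.Agent.W996.MW.VISO
import Pool.Agent.W996.MW.V4
import Pool.Agent.W996.MW.FLAT
import Pool.Agent.W996.MW.WOP
import Pool.Agent.W996.MW.OPT3
import Pool.Agent.W996.MW.ARI2
import Pool.Agent.W101.MW.TEN
import Pool.Agent.W129.MW.PROD
import Pool.Agent.W21.MW.ISO
import Pool.Agent.W314.MW.LB
import Pool.Agent.W333.MW.UB
import Pool.Agent.W346.MW.FAM
import Pool.Agent.W400.MW.ENCOP
import Pool.Agent.W996.MW.ENC
import Pool.Agent.W971.MW.OPT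

/-!
# Down-closed subset states are universal QMA witnesses (operator form)

Basis states of a register with positions `κ` are the bit strings `κ → Bool`; a QMA verifier on
a fixed input is its acceptance operator `E` with `0 ≤ E ≤ 1` (`IsEffect`), and it accepts the
unit state `φ` with probability `accept E φ = ⟨φ|E|φ⟩`.  `subsetState S` is the subset state.
-/

open scoped ComplexOrder Matrix

namespace Pool.Agent.Results.MP_36f78e_lc.MonotoneWitnesses

open Pool.Agent.W996.MW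

/-- The exact constant for the overlap with subset states. -/
def Sharp : Prop :=
    (∀ (n : ℕ) (ψ : (Fin n → Bool) → ℂ), normSq ψ = 1 →
      ∃ S : Finset (Fin n → Bool), S.Nonempty ∧
        1 / (n * Real.log 2 + 5) ≤ ‖star (subsetState S) ⬝ᵥ ψ‖ ^ 2) ∧
    (∀ n : ℕ, 3 ≤ n → ∃ ψ : (Fin n → Bool) → ℂ, normSq ψ = 1 ∧
      ∀ S : Finset (Fin n → Bool), S.Nonempty →
        ‖star (subsetState S) ⬝ᵥ ψ‖ ^ 2 ≤ 1 / ((n - 2) * Real.log 2))

/-- One run of the encoded verifier: down-closed subset states, same soundness. -/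
def SingleRun : Prop :=
    (∀ (n l : ℕ), 1 ≤ l → ∀ E : Matrix (Fin n → Bool) (Fin n → Bool) ℂ, IsEffect E →
      IsEffect (encode l E) ∧
      (∀ s : ℝ, 0 ≤ s → (∀ ψ : (Fin n → Bool) → ℂ, normSq ψ = 1 → accept E ψ ≤ s) →
        ∀ φ : (Fin n × Bool × Fin l → Bool) → ℂ, normSq φ = 1 → accept (encode l E) φ ≤ s) ∧
      (∀ ψ : (Fin n → Bool) → ℂ, normSq ψ = 1 →
        ∃ D : Finset (Fin n × Bool × Fin l → Bool), D.Nonempty ∧
          IsLowerSet (D : Set (Fin n × Bool × Fin l → Bool)) ∧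
          (1 - (1 / 2 : ℝ) ^ l) ^ n / (n * Real.log 2 + 5) * accept E ψ ≤
            accept (encode l E) (subsetState D)))

/-- Constant overlap after the quadratic phase encoding (an isometry). -/
def PhaseOverlap : Prop :=
    (∀ n : ℕ, (quad (Fin n))ᴴ * quad (Fin n) = 1 ∧
      ∀ ψ : (Fin n → Bool) → ℂ, normSq ψ = 1 →
        ∃ S : Finset (Fin n × Fin n → Bool), S.Nonempty ∧
          1 / 48 ≤ ‖star (subsetState S) ⬝ᵥ (quad (Fin n) *ᵥ ψ)‖ ^ 2)

/-- One run of the doubly encoded verifier: constant loss. -/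
def DoubleRun : Prop :=
    (∀ (n l : ℕ), 1 ≤ l → ∀ E : Matrix (Fin n → Bool) (Fin n → Bool) ℂ, IsEffect E →
      IsEffect (encode l (phased E)) ∧
      (∀ s : ℝ, 0 ≤ s → (∀ ψ : (Fin n → Bool) → ℂ, normSq ψ = 1 → accept E ψ ≤ s) →
        ∀ φ : ((Fin n × Fin n) × Bool × Fin l → Bool) → ℂ, normSq φ = 1 →
          accept (encode l (phased E)) φ ≤ s) ∧
      (∀ ψ : (Fin n → Bool) → ℂ, normSq ψ = 1 →
        ∃ D : Finset ((Fin n × Fin n) × Bool × Fin l → Bool), D.Nonempty ∧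
          IsLowerSet (D : Set ((Fin n × Fin n) × Bool × Fin l → Bool)) ∧
          (1 - (1 / 2 : ℝ) ^ l) ^ (n * n) / 48 * accept E ψ ≤
            accept (encode l (phased E)) (subsetState D)))

/-- The transformation with error reduction. -/
def Amplified : Prop :=
    (∀ n : ℕ,
      Fintype.card
          (Fin 8192 × (((Fin 10 × Fin n) × (Fin 10 × Fin n)) × Bool × Fin (lq n))) =
        1638400 * n ^ 2 * Nat.clog 2 (200 * n ^ 2 + 2) ∧
      ∀ E : Matrix (Fin n → Bool) (Fin n → Bool) ℂ, IsEffect E →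
        IsEffect (transform2 n E) ∧
        (∀ ψ : (Fin n → Bool) → ℂ, normSq ψ = 1 → 2 / 3 ≤ accept E ψ →
          ∃ D : Finset
              (Fin 8192 × (((Fin 10 × Fin n) × (Fin 10 × Fin n)) × Bool × Fin (lq n)) → Bool),
            D.Nonempty ∧ IsLowerSet (D : Set
              (Fin 8192 × (((Fin 10 × Fin n) × (Fin 10 × Fin n)) × Bool × Fin (lq n)) →
                Bool)) ∧
            2 / 3 ≤ accept (transform2 n E) (subsetState D)) ∧
        ((∀ ψ : (Fin n → Bool) → ℂ, normSq ψ = 1 → accept E ψ ≤ 1 / 3) →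
          ∀ φ : (Fin 8192 × (((Fin 10 × Fin n) × (Fin 10 × Fin n)) × Bool × Fin (lq n)) →
              Bool) → ℂ,
            normSq φ = 1 → accept (transform2 n E) φ ≤ 1 / 3))

/-- Small families of witness states. -/
def SmallFamilies : Prop :=
    (∀ (n K : ℕ) (φ : Fin K → (Fin n → Bool) → ℂ), (∀ j, normSq (φ j) = 1) →
      ∃ ψ : (Fin n → Bool) → ℂ, normSq ψ = 1 ∧
        ∀ j, ‖star (φ j) ⬝ᵥ ψ‖ ^ 2 ≤ 2 * Real.log (4 * K + 1) / 2 ^ n)

theorem result : Sharp ∧ SingleRun ∧ PhaseOverlap ∧ DoubleRun ∧ Amplified ∧ SmallFamilies := by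
  refine ⟨⟨overlap_lower Pool.Agent.W314.MW.main, overlap_upper Pool.Agent.W333.MW.UB.main⟩, ?_,
    ?_, ?_, ?_, ?_⟩
  · intro n l hl E hE
    exact single Pool.Agent.W314.MW.main Pool.Agent.W971.MW.OPT Pool.Agent.W21.MW.S_ISO_proof
      Pool.Agent.W996.MW.ENCp.enc_thm Pool.Agent.W400.MW.encop n l hl hE
  · intro n
    exact ⟨Pool.Agent.W555.MW.viso (Fin n), fun ψ hψ => overlap_quad Pool.Agent.W555.MW.viso
      Pool.Agent.W520.MW.V4 flat n ψ hψ⟩
  · intro n l hl E hE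
    exact single2 Pool.Agent.W555.MW.viso Pool.Agent.W520.MW.V4 flat
      Pool.Agent.W159.MW.WOP.main Pool.Agent.W706.MW.OPT3 Pool.Agent.W21.MW.S_ISO_proof
      Pool.Agent.W996.MW.ENCp.enc_thm Pool.Agent.W400.MW.encop n l hl hE
  · intro n
    refine ⟨card_positions2 n, fun E hE => ⟨isEffect_transform2 Pool.Agent.W101.MW.ten
      Pool.Agent.W555.MW.viso Pool.Agent.W159.MW.WOP.main
      Pool.Agent.W21.MW.S_ISO_proof Pool.Agent.W400.MW.encop n hE, fun ψ hψ hc => ?_,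
      fun hs φ hφ => ?_⟩⟩
    · exact complete2 Pool.Agent.W101.MW.ten Pool.Agent.W129.MW.prod_part
        Pool.Agent.W555.MW.viso Pool.Agent.W520.MW.V4 flat Pool.Agent.W159.MW.WOP.main
        Pool.Agent.W706.MW.OPT3 Pool.Agent.W21.MW.S_ISO_proof Pool.Agent.W996.MW.ENCp.enc_thm
        Pool.Agent.W400.MW.encop Pool.Agent.W854.MW.ARI2 n hE ψ hψ hc
    · exact sound2 Pool.Agent.W101.MW.ten Pool.Agent.W555.MW.viso
        Pool.Agent.W159.MW.WOP.main Pool.Agent.W21.MW.S_ISO_proof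
        Pool.Agent.W400.MW.encop Pool.Agent.W854.MW.ARI2 n hE hs φ hφ
  · intro n K φ hφ
    obtain ⟨ψ, hψ, h⟩ := Pool.Agent.W346.MW.fam (Fin n → Bool) K φ hφ
    refine ⟨ψ, hψ, fun j => ?_⟩
    have := h j
    rw [Fintype.card_fun, Fintype.card_bool, Fintype.card_fin] at this
    push_cast at this
    exact this

end Pool.Agent.Results.MP_36f78e_lc.MonotoneWitnesses
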